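import Pool.Agent.Helper90.PL.RSG
import Pool.Agent.Helper59.PLG.Defs

/-!
# Project PL, version 7 (MP_e66f84_ag), block RSG
-/

set_option autoImplicit false

namespace Pool.Agent.PRG

open VC IntermediateField NumberField IsDedekindDomain Pool.Agent.SC
open Pool.Agent.L (L0 MM tA tB)
open Pool.Agent.LN (Geo Act GoodCurve)
open Pool.Agent.M (Moves OverPl inL0)
open Pool.Agent.ML (HasMu BPl GBr trE trE_map)
open Pool.Agent.PL90 (gam90 rch3G perm_fix90' numG90)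

noncomputable section

/-- BLOCK RSG, with an action. -/
def StmtRSGA : Prop :=
  ∀ (k K0 E U : Type) [Field k] [NumberField k] [Field K0] [Field E] [Field U] [Algebra k K0]
    [Algebra k E] [Algebra E U] [Algebra K0 U] [Algebra k U] [IsScalarTower k E U]
    [IsScalarTower k K0 U] (ℓ : ℕ) (h : K0) (r : U), ℓ.Prime → HasMu k ℓ →
    Geo k K0 E U ℓ h r → ∀ (c₀ : k) (Φ₀ : (E ≃ₐ[k] E) →* (U ≃+* U)), c₀ ≠ 0 →
    Act (K0 := K0) ℓ r c₀ Φ₀ → NdG k ℓ h →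
    (∃ b : GBr k (AlgebraicClosure k) ℓ h, RatG b) →
    3 ≤ Nat.card {b : Place E (L0 E K0 (U := U)) // BPl ℓ h b} ∧
    (ℓ = 3 → 4 ≤ Nat.card {b : Place E (L0 E K0 (U := U)) // BPl ℓ h b}) ∧
    ∃ R : Finset (Place E (L0 E K0 (U := U))), PD.RatSet (k := k) ℓ h r R ∧
      ∀ b ∈ R, ∃ a : GBr k (AlgebraicClosure k) ℓ h, RatG a ∧
        ∀ x : K0, x ∈ a.P ↔ inL0 x ∈ b.ring

section

variable {k K0 E : Type} [Field k] [NumberField k] [Field K0] [Field E] [Algebra k K0]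
  [Algebra k E] {ℓ : ℕ} {h : K0}

/-- `NdG` over `E` -/
structure NdE (k : Type) {K0 : Type} (E : Type) [Field k] [Field K0] [Field E] [Algebra k K0]
    [Algebra k E] (ℓ : ℕ) (h : K0) : Prop where
  three : 3 ≤ Nat.card (GBr k E ℓ h)
  four : ℓ = 3 → 4 ≤ Nat.card (GBr k E ℓ h)
  five : ℓ = 2 → 5 ≤ Nat.card (GBr k E ℓ h)
  pair : ∀ a b : GBr k E ℓ h, (∀ g : E ≃ₐ[k] E, a.map g = a) → (∀ g : E ≃ₐ[k] E, b.map g = b) →
    a ≠ b → ℓ ≠ 2 ∧ ∃ d : GBr k E ℓ h, d ≠ a ∧ d ≠ b ∧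
      ¬ ℓ ∣ Nat.card (Set.range fun g : E ≃ₐ[k] E => d.map g)

/-- rational points correspond -/
theorem trE_rat (e : E ≃ₐ[k] AlgebraicClosure k) {a : GBr k E ℓ h}
    (ha : ∀ g : E ≃ₐ[k] E, a.map g = a) : RatG (trE e a) := by
  intro g
  rw [← MP.tA_tB e g, ← trE_map, ha]

theorem trE_rat' (e : E ≃ₐ[k] AlgebraicClosure k) {a : GBr k (AlgebraicClosure k) ℓ h}
    (ha : RatG a) (g : E ≃ₐ[k] E) : ((trE e).symm a).map g = (trE e).symm a := by
  apply (trE e).injective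
  rw [trE_map, Equiv.apply_symm_apply, ha]

theorem NdG.toE (e : E ≃ₐ[k] AlgebraicClosure k) (H : NdG k ℓ h) : NdE k E ℓ h := by
  have hc : Nat.card (GBr k E ℓ h) = Nat.card (GBr k (AlgebraicClosure k) ℓ h) :=
    Nat.card_congr (trE (n := ℓ) (h := h) e)
  refine ⟨by rw [hc]; exact H.three, fun hl => by rw [hc]; exact H.four hl,
    fun hl => by rw [hc]; exact H.five hl, fun a b ha hb hab => ?_⟩
  obtain ⟨hl, d, hda, hdb, hd⟩ := H.pair (trE e a) (trE e b) (trE_rat e ha) (trE_rat e hb) fun h =>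
    hab ((trE e).injective h)
  refine ⟨hl, (trE e).symm d, ?_, ?_, ?_⟩
  · intro h1
    apply hda
    rw [← h1, Equiv.apply_symm_apply]
  · intro h1
    apply hdb
    rw [← h1, Equiv.apply_symm_apply]
  · have h1 : {q : GBr k (AlgebraicClosure k) ℓ h | ∃ g, d.map g = q} =
        trE e '' (Set.range fun g : E ≃ₐ[k] E => ((trE e).symm d).map g) := by
      ext x
      constructor
      · rintro ⟨g, rfl⟩
        refine ⟨_, ⟨tB e g, rfl⟩, ?_⟩
        rw [trE_map, MP.tA_tB, Equiv.apply_symm_apply]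
      · rintro ⟨_, ⟨g, rfl⟩, rfl⟩
        refine ⟨tA e g, ?_⟩
        change d.map (tA e g) = trE e (((trE e).symm d).map g)
        rw [trE_map, Equiv.apply_symm_apply]
    have h2 : Nat.card {q : GBr k (AlgebraicClosure k) ℓ h // ∃ g, d.map g = q} =
        Nat.card (Set.range fun g : E ≃ₐ[k] E => ((trE e).symm d).map g) := by
      rw [← Nat.card_image_of_injective (trE e).injective, ← h1]
      rfl
    rw [h2] at hd
    exact hd

end

/-- BLOCK RSG. -/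
theorem rSGA : StmtRSGA := by
  classical
  intro k K0 E U _ _ _ _ _ _ _ _ _ _ _ _ ℓ h r hℓ hμ geo c₀ Φ₀ hc₀ hA hN hrat
  have hcl : IsAlgClosed E := geo.clE
  have halg : Algebra.IsAlgebraic k E := geo.algE
  have hac : IsAlgClosure k E := ⟨hcl, halg⟩
  let e : E ≃ₐ[k] AlgebraicClosure k := IsAlgClosure.equiv k E (AlgebraicClosure k)
  have hgood := hN.toE e
  obtain ⟨hfin, hnr⟩ := ML.nR k K0 E U ℓ ℓ h r hℓ.pos hℓ (dvd_refl _) hμ geo
  have hagree : ∀ (c : k) (Φ : (E ≃ₐ[k] E) →* (U ≃+* U)), c ≠ 0 → Act (K0 := K0) ℓ r c Φ →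
      ∀ (σ : E ≃ₐ[k] E) (b b' : Place E (L0 E K0 (U := U))),
        Moves (Φ σ) _ b b' ↔ Moves (Φ₀ σ) _ b b' := fun c Φ hc hΦ =>
    (hnr c Φ hc hΦ).2.2.1 c₀ Φ₀ hc₀ hA
  obtain ⟨γ, hγ, hP⟩ := gam90 hℓ geo hA
  obtain ⟨T, hT⟩ : ∃ T : Set (Place E (L0 E K0 (U := U))),
      T = {b | BPl ℓ h b ∧ ∀ σ : E ≃ₐ[k] E, Moves (Φ₀ σ) _ b b} := ⟨_, rfl⟩
  have hTfin : T.Finite := hfin.subset fun b hb => by
    rw [hT] at hb
    exact hb.1
  have hmem : ∀ b, b ∈ hTfin.toFinset ↔ BPl ℓ h b ∧ ∀ σ : E ≃ₐ[k] E, Moves (Φ₀ σ) _ b b := by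
    intro b
    rw [Set.Finite.mem_toFinset, hT]
    rfl
  have hF : Finite {b : Place E (L0 E K0 (U := U)) // BPl ℓ h b} := hfin.to_subtype
  have hFG : Finite (GBr k E ℓ h) := Finite.of_equiv _ γ
  have hcard := Nat.card_congr γ
  refine ⟨by rw [hcard]; exact hgood.three, fun hl => by rw [hcard]; exact hgood.four hl,
    hTfin.toFinset, ⟨?_, ?_, ?_, ?_, ?_, ?_⟩, ?_⟩
  · obtain ⟨a, ha⟩ := hrat
    refine ⟨(γ.symm ((trE e).symm a)).1, (hmem _).2 ⟨(γ.symm ((trE e).symm a)).2,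
      fun σ => (hγ σ _ _).2 ?_⟩⟩
    rw [Equiv.apply_symm_apply, trE_rat' e ha]
  · exact fun b hb => ((hmem b).1 hb).1
  · intro b hb c Φ hc hΦ σ
    exact (hagree c Φ hc hΦ σ b b).2 (((hmem b).1 hb).2 σ)
  · intro c Φ hc hΦ b hb hbR
    by_contra hcon
    push Not at hcon
    exact hbR ((hmem b).2 ⟨hb, fun σ => (hagree c Φ hc hΦ σ b b).1 (hcon σ)⟩)
  · rw [hcard]
    by_cases hℓ2 : ℓ = 2
    · have h5 := hgood.five hℓ2
      subst hℓ2
      clear * - h5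
      obtain ⟨n, hn⟩ : ∃ n, n = Nat.card (GBr k E 2 h) := ⟨_, rfl⟩
      rw [← hn] at h5 ⊢
      clear hn
      induction n, h5 using Nat.le_induction with
      | base => norm_num
      | succ n hn ih =>
        rw [pow_succ]
        omega
    · exact numG90 hℓ hℓ2 hgood.three hgood.four
  · intro a ha b hb hab
    obtain ⟨haB, haf⟩ := (hmem a).1 ha
    obtain ⟨hbB, hbf⟩ := (hmem b).1 hb
    obtain ⟨hℓ2, d, hda, hdb, hd⟩ := hgood.pair (γ ⟨a, haB⟩) (γ ⟨b, hbB⟩)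
      (fun g => (hγ g ⟨a, haB⟩ ⟨a, haB⟩).1 (haf g)) (fun g => (hγ g ⟨b, hbB⟩ ⟨b, hbB⟩).1 (hbf g))
      (fun h => hab (Subtype.mk.inj (γ.injective h)))
    refine ⟨hℓ2, fun c Φ hc hΦ σ => ?_⟩
    -- the permutation of the orbit of `d`
    have hcomp : ∀ (x : GBr k E ℓ h) (g g' : E ≃ₐ[k] E), (x.map g).map g' = x.map (g' * g) :=
      fun x g g' => rfl
    have hone : ∀ x : GBr k E ℓ h, x.map 1 = x := fun x => rfl
    let O : Type := Set.range fun g : E ≃ₐ[k] E => d.map g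
    let f : O → O := fun x => ⟨x.1.map σ, by
      obtain ⟨x, g, rfl⟩ := x
      exact ⟨σ * g, rfl⟩⟩
    let f' : O → O := fun x => ⟨x.1.map σ⁻¹, by
      obtain ⟨x, g, rfl⟩ := x
      exact ⟨σ⁻¹ * g, rfl⟩⟩
    let π : Equiv.Perm O :=
      { toFun := f
        invFun := f'
        left_inv := fun x => Subtype.ext (by
          change (x.1.map σ).map σ⁻¹ = x.1
          rw [hcomp, inv_mul_cancel, hone])
        right_inv := fun x => Subtype.ext (by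
          change (x.1.map σ⁻¹).map σ = x.1
          rw [hcomp, mul_inv_cancel, hone]) }
    have hπ : ∀ (n : ℕ) (x : O), ((π ^ n) x).1 = x.1.map (σ ^ n) := by
      intro n
      induction n with
      | zero => intro x; exact (hone x.1).symm
      | succ n ih =>
        intro x
        rw [pow_succ' π, pow_succ' σ, ← hcomp, ← ih x]
        rfl
    obtain ⟨n, hn, t, ht⟩ := perm_fix90' hℓ hd π
    obtain ⟨t, g, rfl⟩ := t
    have hne : ∀ x : GBr k E ℓ h, (∀ g : E ≃ₐ[k] E, x.map g = x) → d ≠ x → d.map g ≠ x := by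
      intro x hx hdx h1
      apply hdx
      have h2 := congrArg (fun y : GBr k E ℓ h => y.map g⁻¹) h1
      change (d.map g).map g⁻¹ = x.map g⁻¹ at h2
      rw [hcomp, inv_mul_cancel, hone, hx] at h2
      exact h2
    refine ⟨(γ.symm (d.map g)).1, (γ.symm (d.map g)).2, ?_, ?_, n, hn,
      (hagree c Φ hc hΦ (σ ^ n) _ _).2 ((hγ (σ ^ n) _ _).2 ?_)⟩
    · intro h1
      refine hne _ (fun g => (hγ g ⟨a, haB⟩ ⟨a, haB⟩).1 (haf g)) hda ?_
      rw [← Equiv.symm_apply_eq γ]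
      exact Subtype.ext h1
    · intro h1
      refine hne _ (fun g => (hγ g ⟨b, hbB⟩ ⟨b, hbB⟩).1 (hbf g)) hdb ?_
      rw [← Equiv.symm_apply_eq γ]
      exact Subtype.ext h1
    · rw [Equiv.apply_symm_apply]
      have h1 := hπ n ⟨d.map g, ⟨g, rfl⟩⟩
      rw [ht] at h1
      exact h1.symm
  · intro b hb
    obtain ⟨hbB, hbf⟩ := (hmem b).1 hb
    refine ⟨trE e (γ ⟨b, hbB⟩), trE_rat e fun g => (hγ g ⟨b, hbB⟩ ⟨b, hbB⟩).1 (hbf g),
      fun x => hP ⟨b, hbB⟩ x⟩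

/-- BLOCK NOG. -/
theorem nOG (hNONE : PRL.StmtNONE) : StmtNOG := by
  intro k K0 E U _ _ _ _ _ _ _ _ _ _ _ _ ℓ h r hℓ hμ _ geo hno
  have hcl : IsAlgClosed E := geo.clE
  have halg : Algebra.IsAlgebraic k E := geo.algE
  have hac : IsAlgClosure k E := ⟨hcl, halg⟩
  let e : E ≃ₐ[k] AlgebraicClosure k := IsAlgClosure.equiv k E (AlgebraicClosure k)
  by_cases H : ∃ (c₀ : k) (Φ₀ : (E ≃ₐ[k] E) →* (U ≃+* U)), c₀ ≠ 0 ∧ Act (K0 := K0) ℓ r c₀ Φ₀
  · obtain ⟨c₀, Φ₀, hc₀, hA⟩ := H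
    refine hNONE k K0 E U ℓ h r hℓ hμ geo c₀ Φ₀ hc₀ hA fun b hb => ?_
    by_contra hcon
    push Not at hcon
    obtain ⟨a, ha, -⟩ := rch3G hℓ geo hA hb hcon
    exact hno ⟨trE e a, trE_rat e ha⟩
  · intro ε hε
    filter_upwards with X T hT hT'
    have hT0 : T = ∅ := by
      rw [Finset.eq_empty_iff_forall_notMem]
      intro c hc
      obtain ⟨hc0, -, Φ, hΦ⟩ := hT' c hc
      exact H ⟨c, Φ, hc0, hΦ⟩
    rw [hT0, Finset.card_empty, Nat.cast_zero]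
    have h1 : 0 ≤ Real.log X := Real.log_natCast_nonneg X
    positivity

end

end Pool.Agent.PRG
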